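import Pool.Agent.Results.MP_4d52ff_nt.AlmostAllTuples

set_option autoImplicit false

/-! Counting the tuples near which the relations between multiple zeta values do not split. -/

namespace Pool.Agent.V8H12.MZ

open Pool.Agent.Results.MP_4d52ff_nt.AlmostAllTuples (Letter AdmissiblePattern EvenFront Splits fronts Bad Few)

theorem bad_mono {k r : ℕ} {w : Fin r → List (Letter k)} {D : ℕ} {H H' : ℝ} {s : Fin k → ℕ} (h : H ≤ H')
    (hs : Bad w D H s) : Bad w D H' s := by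
  obtain ⟨P, h1, h2, h3⟩ := hs
  exact ⟨P, h1, fun m => (h2 m).trans h, h3⟩

/-- the patterns for which almost all tuples are known to be good -/
def Nice {k r : ℕ} (w : Fin r → List (Letter k)) : Prop :=
  (∀ i, AdmissiblePattern (w i)) ∧ ((∀ i, EvenFront (w i)) ∨ Splits (fronts w))

theorem few {k r : ℕ} {w : Fin r → List (Letter k)} (hw : Nice w) (D κ : ℕ) :
    Few κ fun H s => Bad w D H s := by
  rcases hw.2 with hf | hf
  · exact Pool.Agent.Results.MP_4d52ff_nt.AlmostAllTuples.result.1 k r w hw.1 hf D κ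
  · exact Pool.Agent.Results.MP_4d52ff_nt.AlmostAllTuples.result.2.1 k r w hw.1 hf D κ

/-- the bad tuples with comparable coordinates -/
def WW {k r : ℕ} (w : Fin r → List (Letter k)) (D κ : ℕ) (C : ℝ) : Set (Fin k → ℕ) :=
  {s | ∃ X : ℕ, 1 ≤ X ∧ (∀ i, X ≤ s i ∧ s i ≤ κ * X) ∧ Bad w D (C ^ X) s}

/-- the number of the bad tuples with comparable coordinates up to `T` -/
theorem count {k r : ℕ} {w : Fin r → List (Letter k)} (hk : 1 ≤ k) (hw : Nice w) (D κ : ℕ) {C : ℝ} (hC : 1 ≤ C) :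
    ∃ A : ℕ, ∀ T : ℕ, 1 ≤ T →
      {s : Fin k → ℕ | (∀ i, s i ≤ T) ∧ s ∈ WW w D κ C}.ncard ≤ A * ((Nat.log 2 T + 1) * T ^ (k - 1)) := by
  classical
  obtain ⟨K, hK⟩ := few hw D (2 * κ)
  obtain ⟨N₀, hN⟩ := hK (C ^ 2)
  -- the tuples of a dyadic block
  obtain ⟨S, hS⟩ : ∃ S : ℕ → Set (Fin k → ℕ), S = fun j => {s | (∀ i, 2 ^ j ≤ s i ∧ s i ≤ 2 * κ * 2 ^ j) ∧
    Bad w D ((C ^ 2) ^ (2 ^ j)) s} := ⟨_, rfl⟩
  have hfin : ∀ j, (S j).Finite := by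
    intro j
    rw [hS]
    refine (Set.Finite.pi' (t := fun _ : Fin k => Set.Icc 0 (2 * κ * 2 ^ j)) fun _ => Set.finite_Icc _ _).subset ?_
    intro s hs i
    exact ⟨Nat.zero_le _, (hs.1 i).2⟩
  have hcard : ∀ j, (S j).ncard ≤ (K + (2 * κ * N₀ + 1) ^ k) * (2 ^ j) ^ (k - 1) := by
    intro j
    by_cases hj : N₀ ≤ 2 ^ j
    · have h1 := hN (2 ^ j) hj
      rw [hS]
      refine h1.trans ?_
      exact Nat.mul_le_mul_right _ (Nat.le_add_right _ _)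
    · have hsub : S j ⊆ {s | ∀ i, s i ∈ Set.Icc 0 (2 * κ * N₀)} := by
        rw [hS]
        intro s hs i
        refine ⟨Nat.zero_le _, (hs.1 i).2.trans ?_⟩
        exact Nat.mul_le_mul_left _ (by omega)
      have hfin2 : {s : Fin k → ℕ | ∀ i, s i ∈ Set.Icc 0 (2 * κ * N₀)}.Finite :=
        Set.Finite.pi' (t := fun _ : Fin k => Set.Icc 0 (2 * κ * N₀)) fun _ => Set.finite_Icc _ _
      have h2 := Set.ncard_le_ncard hsub hfin2
      have h3 : {s : Fin k → ℕ | ∀ i, s i ∈ Set.Icc 0 (2 * κ * N₀)}.ncard = (2 * κ * N₀ + 1) ^ k := by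
        have h4 : {s : Fin k → ℕ | ∀ i, s i ∈ Set.Icc 0 (2 * κ * N₀)} =
            ((Fintype.piFinset fun _ : Fin k => Finset.Icc 0 (2 * κ * N₀) : Finset (Fin k → ℕ)) : Set (Fin k → ℕ)) := by
          ext s
          simp only [Set.mem_ofPred_eq, Finset.mem_coe, Fintype.mem_piFinset, Set.mem_Icc, Finset.mem_Icc]
        rw [h4, Set.ncard_coe_finset, Fintype.card_piFinset, Finset.prod_const, Finset.card_univ, Fintype.card_fin,
          Nat.card_Icc]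
        rfl
      rw [h3] at h2
      have h5 : 1 ≤ (2 ^ j) ^ (k - 1) := Nat.one_le_iff_ne_zero.2 (by positivity)
      calc (S j).ncard ≤ (2 * κ * N₀ + 1) ^ k := h2
        _ ≤ (K + (2 * κ * N₀ + 1) ^ k) * 1 := by omega
        _ ≤ _ := Nat.mul_le_mul_left _ h5
  refine ⟨K + (2 * κ * N₀ + 1) ^ k, fun T hT => ?_⟩
  have hsub : {s : Fin k → ℕ | (∀ i, s i ≤ T) ∧ s ∈ WW w D κ C} ⊆ ⋃ j ∈ Finset.range (Nat.log 2 T + 1), S j := by
    rintro s ⟨hsT, X, hX1, hX2, hX3⟩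
    have hXT : X ≤ T := by
      have := (hX2 ⟨0, hk⟩).1
      exact this.trans (hsT _)
    have h1 : 2 ^ Nat.log 2 X ≤ X := Nat.pow_log_le_self 2 (by omega)
    have h2 : X < 2 ^ (Nat.log 2 X + 1) := Nat.lt_pow_succ_log_self (by norm_num) X
    have h3 : Nat.log 2 X ≤ Nat.log 2 T := Nat.log_mono_right hXT
    rw [Set.mem_iUnion₂]
    refine ⟨Nat.log 2 X, Finset.mem_range.2 (by omega), ?_⟩
    rw [hS]
    refine ⟨fun i => ⟨h1.trans (hX2 i).1, (hX2 i).2.trans ?_⟩, bad_mono ?_ hX3⟩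
    · rw [pow_succ] at h2
      calc κ * X ≤ κ * (2 ^ Nat.log 2 X * 2) := Nat.mul_le_mul_left _ h2.le
        _ = 2 * κ * 2 ^ Nat.log 2 X := by ring
    · rw [← pow_mul]
      refine pow_le_pow_right₀ hC ?_
      rw [pow_succ] at h2
      omega
  have hfinU : (⋃ j ∈ Finset.range (Nat.log 2 T + 1), S j).Finite :=
    Set.Finite.biUnion (Finset.finite_toSet _) fun j _ => hfin j
  refine (Set.ncard_le_ncard hsub hfinU).trans ((Finset.set_ncard_biUnion_le _ _).trans ?_)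
  have h6 : ∀ j ∈ Finset.range (Nat.log 2 T + 1), (S j).ncard ≤ (K + (2 * κ * N₀ + 1) ^ k) * T ^ (k - 1) := by
    intro j hj
    rw [Finset.mem_range] at hj
    refine (hcard j).trans (Nat.mul_le_mul_left _ (Nat.pow_le_pow_left ?_ _))
    calc 2 ^ j ≤ 2 ^ Nat.log 2 T := Nat.pow_le_pow_right (by norm_num) (by omega)
      _ ≤ T := Nat.pow_log_le_self 2 (by omega)
  refine (Finset.sum_le_card_nsmul _ _ _ h6).trans (le_of_eq ?_)
  rw [Finset.card_range, smul_eq_mul]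
  ring

/-- with real exponents -/
theorem count_rpow {k r : ℕ} {w : Fin r → List (Letter k)} (hk : 1 ≤ k) (hw : Nice w) (D κ : ℕ) {C : ℝ} (hC : 1 ≤ C)
    {ε : ℝ} (hε : 0 < ε) : ∃ A : ℝ, ∀ T : ℕ, 1 ≤ T →
      ({s : Fin k → ℕ | (∀ i, s i ≤ T) ∧ s ∈ WW w D κ C}.ncard : ℝ) ≤ A * (T : ℝ) ^ ((k : ℝ) - 1 + ε) := by
  obtain ⟨A, hA⟩ := count hk hw D κ hC
  refine ⟨A * (2 / ε + 1), fun T hT => ?_⟩
  have hT1 : (1 : ℝ) ≤ T := by exact_mod_cast hT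
  have hT0 : (0 : ℝ) < T := by linarith
  have h1 : (({s : Fin k → ℕ | (∀ i, s i ≤ T) ∧ s ∈ WW w D κ C}.ncard : ℕ) : ℝ) ≤
      ((A * ((Nat.log 2 T + 1) * T ^ (k - 1)) : ℕ) : ℝ) := by exact_mod_cast hA T hT
  refine h1.trans ?_
  push_cast
  have h2 : (T : ℝ) ^ ((k : ℝ) - 1 + ε) = (T : ℝ) ^ ε * (T : ℝ) ^ (k - 1) := by
    rw [← Real.rpow_natCast, ← Real.rpow_add hT0]
    congr 1
    rw [Nat.cast_sub hk]
    push_cast
    ring
  have h3 : ((Nat.log 2 T : ℕ) : ℝ) ≤ 2 / ε * (T : ℝ) ^ ε := by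
    have h4 : (2 : ℝ) ^ Nat.log 2 T ≤ T := by exact_mod_cast Nat.pow_log_le_self 2 (by omega : T ≠ 0)
    have h5 := Real.log_le_log (by positivity) h4
    rw [Real.log_pow] at h5
    have h6 : (1 / 2 : ℝ) ≤ Real.log 2 := by
      have := Real.log_two_gt_d9
      linarith
    have h7 := Real.log_le_rpow_div hT0.le hε
    have h8 : ((Nat.log 2 T : ℕ) : ℝ) * (1 / 2) ≤ (Nat.log 2 T : ℕ) * Real.log 2 :=
      mul_le_mul_of_nonneg_left h6 (Nat.cast_nonneg _)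
    have h9 : ((Nat.log 2 T : ℕ) : ℝ) ≤ 2 * ((T : ℝ) ^ ε / ε) := by linarith
    refine h9.trans (le_of_eq ?_)
    ring
  have h10 : (1 : ℝ) ≤ (T : ℝ) ^ ε := Real.one_le_rpow hT1 hε.le
  rw [h2]
  have h11 : ((Nat.log 2 T : ℕ) : ℝ) + 1 ≤ (2 / ε + 1) * (T : ℝ) ^ ε := by nlinarith
  have h12 : (0 : ℝ) ≤ (T : ℝ) ^ (k - 1) := by positivity
  calc (A : ℝ) * (((Nat.log 2 T : ℕ) + 1) * (T : ℝ) ^ (k - 1))
      ≤ A * (((2 / ε + 1) * (T : ℝ) ^ ε) * (T : ℝ) ^ (k - 1)) :=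
        mul_le_mul_of_nonneg_left (mul_le_mul_of_nonneg_right h11 h12) (Nat.cast_nonneg _)
    _ = _ := by ring

/-- one variable -/
theorem count_one {r : ℕ} {w : Fin r → List (Letter 1)} (hw : Nice w) (D : ℕ) {C : ℝ} (hC : 1 ≤ C)
    {ε : ℝ} (hε : 0 < ε) : ∃ A : ℝ, ∀ X : ℕ, 1 ≤ X →
      ({t : ℕ | 1 ≤ t ∧ t ≤ X ∧ Bad w D (C ^ t) (fun _ => t)}.ncard : ℝ) ≤ A * (X : ℝ) ^ ε := by
  obtain ⟨A, hA⟩ := count_rpow (k := 1) le_rfl hw D 1 hC hε
  refine ⟨A, fun X hX => le_trans ?_ ((hA X hX).trans (le_of_eq ?_))⟩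
  · have hfin : {s : Fin 1 → ℕ | (∀ i, s i ≤ X) ∧ s ∈ WW w D 1 C}.Finite := by
      refine (Set.Finite.pi' (t := fun _ : Fin 1 => Set.Icc 0 X) fun _ => Set.finite_Icc _ _).subset ?_
      intro s hs i
      exact ⟨Nat.zero_le _, hs.1 i⟩
    have h1 : {t : ℕ | 1 ≤ t ∧ t ≤ X ∧ Bad w D (C ^ t) (fun _ => t)}.ncard ≤
        {s : Fin 1 → ℕ | (∀ i, s i ≤ X) ∧ s ∈ WW w D 1 C}.ncard := by
      refine Set.ncard_le_ncard_of_injOn (fun t _ => t) ?_ ?_ hfin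
      · rintro t ⟨h1, h2, h3⟩
        exact ⟨fun _ => h2, t, h1, fun _ => ⟨le_rfl, (one_mul t).ge⟩, h3⟩
      · intro a _ b _ hab
        exact congrFun hab 0
    exact_mod_cast h1
  · congr 2
    push_cast
    ring

end Pool.Agent.V8H12.MZ
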